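import Mathlib

/-! `{0, 8, 1}` and `{0, 8, 2}` in `ℤ/16` are inequivalent, not extreme, and both have Sidon
constant `√2`. -/

open Complex

namespace Pool.Agent.Results.MP_e96fbd_an.SameConstant

/-- `χ_x(t) = exp(2 π i x t / k)`. -/
noncomputable def chi {k : ℕ} (x t : ZMod k) : ℂ :=
  exp (2 * Real.pi * I * (x.val * t.val : ℕ) / k)

/-- The Sidon constant. -/
noncomputable def sidon {k : ℕ} (E : Finset (ZMod k)) : ℝ :=
  sSup {s | ∃ a : ZMod k → ℂ, (∀ t, ‖∑ x ∈ E, a x * chi x t‖ ≤ 1) ∧ s = ∑ x ∈ E, ‖a x‖}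

def Equivalent {k : ℕ} (E F : Finset (ZMod k)) : Prop :=
  ∃ (u : (ZMod k)ˣ) (c : ZMod k), F = E.image fun x => u * x + c

def Extreme {k : ℕ} (E : Finset (ZMod k)) : Prop := sidon E = √(E.card : ℝ)

noncomputable def w : ℂ := exp (2 * Real.pi * I / 16)

lemma chi_eq (x t : ZMod 16) : chi x t = w ^ (x.val * t.val) := by
  rw [chi, w, ← exp_nat_mul]; congr 1; push_cast; ring

lemma w4 : w ^ 4 = I := by
  rw [w, ← exp_nat_mul]
  refine Eq.trans ?_ exp_pi_div_two_mul_I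
  congr 1; push_cast; ring

lemma w_norm : ‖w‖ = 1 := by
  have : ‖w‖ ^ 4 = 1 := by rw [← norm_pow, w4, norm_I]
  exact (pow_eq_one_iff_of_nonneg (norm_nonneg _) (by norm_num)).mp this

lemma key (R c : ℂ) (h0 : ‖R + c‖ ≤ 1) (h1 : ‖R + c * I‖ ≤ 1) (h2 : ‖R - c‖ ≤ 1)
    (h3 : ‖R - c * I‖ ≤ 1) : ‖R‖ ^ 2 + √2 * (‖R‖ * ‖c‖) + ‖c‖ ^ 2 ≤ 1 := by
  have e : ∀ z : ℂ, ‖z‖ ≤ 1 → z.re ^ 2 + z.im ^ 2 ≤ 1 := fun z hz => by
    have := pow_le_one₀ (n := 2) (norm_nonneg z) hz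
    rwa [Complex.sq_norm, normSq_apply, ← sq, ← sq] at this
  have a0 := e _ h0
  have a1 := e _ h1
  have a2 := e _ h2
  have a3 := e _ h3
  simp only [add_re, add_im, sub_re, sub_im, mul_re, mul_im, I_re, I_im] at a0 a1 a2 a3
  have hR : ‖R‖ ^ 2 = R.re ^ 2 + R.im ^ 2 := by rw [Complex.sq_norm, normSq_apply]; ring
  have hc : ‖c‖ ^ 2 = c.re ^ 2 + c.im ^ 2 := by rw [Complex.sq_norm, normSq_apply]; ring
  set m := 1 - ‖R‖ ^ 2 - ‖c‖ ^ 2 with hm
  have b1 : |2 * (R.re * c.re + R.im * c.im)| ≤ m := by rw [abs_le]; constructor <;> nlinarith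
  have b2 : |2 * (R.im * c.re - R.re * c.im)| ≤ m := by rw [abs_le]; constructor <;> nlinarith
  have hm0 : 0 ≤ m := (abs_nonneg _).trans b1
  have b3 := sq_le_sq' (abs_le.mp b1).1 (abs_le.mp b1).2
  have b4 := sq_le_sq' (abs_le.mp b2).1 (abs_le.mp b2).2
  have : √2 * (‖R‖ * ‖c‖) ≤ m := by
    apply abs_le_of_sq_le_sq' _ hm0 |>.2
    rw [mul_pow, mul_pow, Real.sq_sqrt (by norm_num), hR, hc]
    nlinarith
  linarith

lemma bound (a b c R : ℝ) (hR0 : 0 ≤ R) (hc : 0 ≤ c) (hR : a ^ 2 + b ^ 2 ≤ R ^ 2)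
    (h : R ^ 2 + √2 * (R * c) + c ^ 2 ≤ 1) : a + b + c ≤ √2 := by
  have s2 : √2 ^ 2 = 2 := Real.sq_sqrt (by norm_num)
  have s0 : 0 ≤ √2 := Real.sqrt_nonneg _
  have h1 : a + b ≤ √2 * R := by
    apply abs_le_of_sq_le_sq' _ (mul_nonneg s0 hR0) |>.2
    rw [mul_pow, s2]; nlinarith [sq_nonneg (a - b)]
  have h2 : √2 * R + c ≤ √2 := by
    apply abs_le_of_sq_le_sq' _ s0 |>.2
    rw [add_sq, mul_pow, s2]; nlinarith
  linarith

lemma fin (A B C D : ℂ) (hD : ‖D‖ = ‖C‖)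
    (h : ‖A + B + C‖ ≤ 1 ∧ ‖A + B + C * I‖ ≤ 1 ∧ ‖A + B - C‖ ≤ 1 ∧ ‖A + B - C * I‖ ≤ 1)
    (h' : ‖A - B + D‖ ≤ 1 ∧ ‖A - B + D * I‖ ≤ 1 ∧ ‖A - B - D‖ ≤ 1 ∧ ‖A - B - D * I‖ ≤ 1) :
    ‖A‖ + ‖B‖ + ‖C‖ ≤ √2 := by
  have p := parallelogram_law_with_norm ℂ A B
  have k1 := key _ _ h.1 h.2.1 h.2.2.1 h.2.2.2
  have k2 := key _ _ h'.1 h'.2.1 h'.2.2.1 h'.2.2.2
  rw [hD] at k2
  rcases le_total ‖A + B‖ ‖A - B‖ with hh | hh
  · exact bound _ _ _ _ (norm_nonneg _) (norm_nonneg _)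
      (by nlinarith [norm_nonneg (A + B), norm_nonneg (A - B)]) k2
  · exact bound _ _ _ _ (norm_nonneg _) (norm_nonneg _)
      (by nlinarith [norm_nonneg (A + B), norm_nonneg (A - B)]) k1

lemma wpow (q r : ℕ) : w ^ (4 * q + r) = I ^ q * w ^ r := by rw [pow_add, pow_mul, w4]

lemma sidon_eq (b : ZMod 16) (hb : b = 1 ∨ b = 2) : sidon ({0, 8, b} : Finset (ZMod 16)) = √2 := by
  have hs : ∀ f : ZMod 16 → ℂ, ∑ x ∈ ({0, 8, b} : Finset (ZMod 16)), f x = f 0 + f 8 + f b := by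
    intro f
    rcases hb with rfl | rfl <;>
      rw [Finset.sum_insert (by decide), Finset.sum_pair (by decide), add_assoc]
  have hs' : ∀ f : ZMod 16 → ℝ, ∑ x ∈ ({0, 8, b} : Finset (ZMod 16)), f x = f 0 + f 8 + f b := by
    intro f
    rcases hb with rfl | rfl <;>
      rw [Finset.sum_insert (by decide), Finset.sum_pair (by decide), add_assoc]
  have h8 : ∀ t : ZMod 16, chi (8 : ZMod 16) t = (-1) ^ t.val := fun t => by
    rw [chi_eq, show (8 : ZMod 16).val = 4 * 2 from rfl, pow_mul, pow_mul, w4, I_sq]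
  have h0 : ∀ t : ZMod 16, chi (0 : ZMod 16) t = 1 := fun t => by simp [chi]
  apply IsGreatest.csSup_eq
  constructor
  · have s0 : (0 : ℝ) < √2 := by positivity
    have s2 : √2 * √2 = 2 := Real.mul_self_sqrt (by norm_num)
    refine ⟨fun x => if x = 0 then ((√2)⁻¹ : ℝ) else if x = 8 then ((√2)⁻¹ : ℝ) * I else 0,
      fun t => ?_, ?_⟩
    · have e1 : b ≠ 0 := by rcases hb with rfl | rfl <;> decide
      have e2 : b ≠ 8 := by rcases hb with rfl | rfl <;> decide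
      have e3 : (8 : ZMod 16) ≠ 0 := by decide
      rw [hs]
      simp only [e1, e2, e3, if_true, if_false, h0, h8, zero_mul, add_zero, mul_one]
      rw [← sq_le_one_iff₀ (norm_nonneg _), Complex.sq_norm, normSq_apply]
      rcases neg_one_pow_eq_or ℂ t.val with h | h <;> rw [h] <;> simp <;> field_simp <;>
        nlinarith
    · have e1 : b ≠ 0 := by rcases hb with rfl | rfl <;> decide
      have e2 : b ≠ 8 := by rcases hb with rfl | rfl <;> decide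
      have e3 : (8 : ZMod 16) ≠ 0 := by decide
      rw [hs']
      simp only [e1, e2, e3, if_true, if_false, norm_mul, norm_I, norm_real, norm_zero,
        Real.norm_of_nonneg (inv_nonneg.mpr s0.le)]
      field_simp
      nlinarith
  · rintro _ ⟨a, ha, rfl⟩
    rw [hs']
    simp only [hs, h0, h8, mul_one, chi_eq b] at ha
    have T : ∀ (t : ZMod 16) (s : ℂ) (q r : ℕ), (-1 : ℂ) ^ t.val = s → b.val * t.val = 4 * q + r →
        ‖a 0 + a 8 * s + a b * (I ^ q * w ^ r)‖ ≤ 1 := fun t s q r h1 h2 => by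
      have := ha t
      rwa [h1, h2, wpow] at this
    have I3 : I ^ 3 = -I := by rw [pow_succ, I_sq]; ring
    rcases hb with rfl | rfl
    · refine fin _ _ _ (a 1 * w) (by rw [norm_mul, w_norm, mul_one]) ⟨?_, ?_, ?_, ?_⟩
        ⟨?_, ?_, ?_, ?_⟩
      · simpa using T 0 1 0 0 (Even.neg_one_pow (by decide)) rfl
      · simpa using T 4 1 1 0 (Even.neg_one_pow (by decide)) rfl
      · simpa [sub_eq_add_neg] using T 8 1 2 0 (Even.neg_one_pow (by decide)) rfl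
      · simpa [sub_eq_add_neg, I3] using T 12 1 3 0 (Even.neg_one_pow (by decide)) rfl
      · simpa [sub_eq_add_neg] using T 1 (-1) 0 1 (Odd.neg_one_pow (by decide)) rfl
      · convert T 5 (-1) 1 1 (Odd.neg_one_pow (by decide)) rfl using 2; ring
      · convert T 9 (-1) 2 1 (Odd.neg_one_pow (by decide)) rfl using 2; rw [I_sq]; ring
      · convert T 13 (-1) 3 1 (Odd.neg_one_pow (by decide)) rfl using 2; rw [I3]; ring
    · refine fin _ _ _ (a 2 * w ^ 2) (by rw [norm_mul, norm_pow, w_norm, one_pow, mul_one])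
        ⟨?_, ?_, ?_, ?_⟩ ⟨?_, ?_, ?_, ?_⟩
      · simpa using T 0 1 0 0 (Even.neg_one_pow (by decide)) rfl
      · simpa using T 2 1 1 0 (Even.neg_one_pow (by decide)) rfl
      · simpa [sub_eq_add_neg] using T 4 1 2 0 (Even.neg_one_pow (by decide)) rfl
      · simpa [sub_eq_add_neg, I3] using T 6 1 3 0 (Even.neg_one_pow (by decide)) rfl
      · simpa [sub_eq_add_neg] using T 1 (-1) 0 2 (Odd.neg_one_pow (by decide)) rfl
      · convert T 3 (-1) 1 2 (Odd.neg_one_pow (by decide)) rfl using 2; ring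
      · convert T 5 (-1) 2 2 (Odd.neg_one_pow (by decide)) rfl using 2; rw [I_sq]; ring
      · convert T 7 (-1) 3 2 (Odd.neg_one_pow (by decide)) rfl using 2; rw [I3]; ring

theorem result : ∃ (k : ℕ) (E F : Finset (ZMod k)), 1 ≤ k ∧ E.Nonempty ∧ E.card = F.card ∧
    sidon E = sidon F ∧ ¬ Equivalent E F ∧ ¬ Extreme E ∧ ¬ Extreme F := by
  have h1 := sidon_eq 1 (Or.inl rfl)
  have h2 := sidon_eq 2 (Or.inr rfl)
  have c1 : ({0, 8, 1} : Finset (ZMod 16)).card = 3 := by decide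
  have c2 : ({0, 8, 2} : Finset (ZMod 16)).card = 3 := by decide
  have h3 : √2 ≠ √((3 : ℕ) : ℝ) := (Real.sqrt_lt_sqrt (by norm_num) (by norm_num)).ne
  refine ⟨16, {0, 8, 1}, {0, 8, 2}, by norm_num, by simp, by rw [c1, c2], by rw [h1, h2], ?_,
    by rwa [Extreme, h1, c1], by rwa [Extreme, h2, c2]⟩
  rintro ⟨u, c, h⟩
  have : ∀ u v c : ZMod 16, u * v = 1 →
      ({0, 8, 2} : Finset (ZMod 16)) ≠ ({0, 8, 1} : Finset (ZMod 16)).image fun x => u * x + c := by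
    decide +kernel
  exact this u u.inv c u.val_inv h

end Pool.Agent.Results.MP_e96fbd_an.SameConstant
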